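import Pool.Agent.Helper12.GM.LibF

/-!
# Module LOWER: lower orbit counting bound
-/

open scoped ENNReal UpperHalfPlane MatrixGroups Topology
open UpperHalfPlane Real Filter

namespace Pool.Agent.Helper12.GM

theorem lower_dist_I (a s : ℝ) (hs : 0 < s) (z : ℍ) (hre : z.re = a) (him : z.im = s) :
    Real.cosh (dist (I : ℍ) z) = (a ^ 2 + s ^ 2 + 1) / (2 * s) := by
  rw [UpperHalfPlane.cosh_dist, Complex.dist_eq, ← Complex.normSq_eq_norm_sq, Complex.normSq_apply]
  have h1 : ((I : ℍ) : ℂ) - (z : ℂ) = ⟨-a, 1 - s⟩ := by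
    apply Complex.ext
    · simp [hre]
    · simp [him]
  rw [h1, him]
  simp only [UpperHalfPlane.I_im]
  field_simp
  ring

theorem lower_dist (a b s : ℝ) (hs : 0 < s) (z w : ℍ) (hz : z.re = a) (hz' : z.im = s)
    (hw : w.re = b) (hw' : w.im = s) :
    Real.cosh (dist z w) = 1 + (a - b) ^ 2 / (2 * s ^ 2) := by
  rw [UpperHalfPlane.cosh_dist, Complex.dist_eq, ← Complex.normSq_eq_norm_sq, Complex.normSq_apply]
  have h1 : (z : ℂ) - (w : ℂ) = ⟨a - b, 0⟩ := by
    apply Complex.ext
    · simp [hz, hw]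
    · simp [hz', hw']
  rw [h1, hz', hw']
  simp only
  field_simp
  ring

theorem lower_cosh_lower {d c : ℝ} (hd : 0 ≤ d) (h : Real.exp c / 2 ≤ Real.cosh d) : c - 1 ≤ d := by
  have h1 : Real.cosh d ≤ Real.exp d := by
    rw [Real.cosh_eq]
    have : Real.exp (-d) ≤ Real.exp d := Real.exp_le_exp.2 (by linarith)
    linarith
  have h2 : Real.exp (c - 1) ≤ Real.exp d := by
    have h3 : Real.exp c = Real.exp (c - 1) * Real.exp 1 := by rw [← Real.exp_add]; ring_nf
    have h4 : (2 : ℝ) ≤ Real.exp 1 := by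
      have := Real.add_one_le_exp (1 : ℝ)
      linarith
    have h5 := Real.exp_pos (c - 1)
    nlinarith
  exact Real.exp_le_exp.1 h2

theorem lower_cosh_upper {d c : ℝ} (h : Real.cosh d ≤ 3 / 2 * Real.exp c) : d ≤ c + 2 := by
  have h1 : Real.exp d / 2 ≤ Real.cosh d := by
    rw [Real.cosh_eq]
    have := Real.exp_pos (-d)
    linarith
  have h2 : Real.exp d ≤ Real.exp (c + 2) := by
    have h3 : Real.exp (c + 2) = Real.exp c * Real.exp 2 := by rw [← Real.exp_add]
    have h4 : (3 : ℝ) ≤ Real.exp 2 := by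
      have := Real.add_one_le_exp (2 : ℝ)
      linarith
    have h5 := Real.exp_pos c
    rw [h3]
    nlinarith
  exact Real.exp_le_exp.1 h2

theorem st_LOWER : ST_LOWER := by
  classical
  intro Γ _ X
  obtain ⟨R, hR⟩ := X.cocpt
  have hR0 : 0 ≤ R := by
    obtain ⟨g, hg⟩ := hR I
    exact le_trans dist_nonneg hg
  set A : ℝ := 2 * Real.exp (R + 1) with hA
  have hA1 : 1 ≤ A := by
    have := Real.add_one_le_exp (R + 1)
    rw [hA]; linarith
  have hA0 : 0 < A := by linarith
  refine ⟨A + R + 2, by linarith, fun t ht => ?_⟩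
  have hs : 0 < Real.exp (-t) := Real.exp_pos _
  let z : ℕ → ℍ := fun k => ⟨⟨k * A * Real.exp (-t), Real.exp (-t)⟩, hs⟩
  have hzre : ∀ k, (z k).re = k * A * Real.exp (-t) := fun k => rfl
  have hzim : ∀ k, (z k).im = Real.exp (-t) := fun k => rfl
  choose g hg using fun k => hR (z k)
  set N : ℕ := ⌊Real.exp t / A⌋₊ + 1 with hN
  have hgdist : ∀ k, dist (z k) (X.M (g k) • (I : ℍ)) ≤ R := hg
  -- injectivity
  have hinj : Function.Injective g := by
    intro k l hkl
    by_contra hne
    have h1 : dist (z k) (z l) ≤ 2 * R := by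
      have h2 := hgdist k
      have h3 := hgdist l
      rw [← hkl] at h3
      have h4 := dist_triangle_right (z k) (z l) (X.M (g k) • (I : ℍ))
      linarith
    have h2 := lower_dist _ _ _ hs (z k) (z l) (hzre k) (hzim k) (hzre l) (hzim l)
    have h3 : Real.cosh (dist (z k) (z l)) ≤ Real.exp (2 * R) := by
      have h4 : Real.cosh (dist (z k) (z l)) ≤ Real.exp (dist (z k) (z l)) := by
        rw [Real.cosh_eq]
        have : Real.exp (-(dist (z k) (z l))) ≤ Real.exp (dist (z k) (z l)) :=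
          Real.exp_le_exp.2 (by linarith [dist_nonneg (x := z k) (y := z l)])
        linarith
      exact h4.trans (Real.exp_le_exp.2 h1)
    have hkl1 : (1 : ℝ) ≤ ((k : ℝ) - l) ^ 2 := by
      have h5 : ((k : ℤ) - l) ≠ 0 := by
        intro h6
        apply hne
        omega
      have h6 : 1 ≤ ((k : ℤ) - l) ^ 2 := by
        have : 0 < ((k : ℤ) - l) ^ 2 := by positivity
        linarith
      exact_mod_cast h6
    have h5 : ((k : ℝ) * A * Real.exp (-t) - l * A * Real.exp (-t)) ^ 2 /
        (2 * Real.exp (-t) ^ 2) = ((k : ℝ) - l) ^ 2 * A ^ 2 / 2 := by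
      field_simp
    rw [h5] at h2
    have h6 : A ^ 2 = 4 * Real.exp (2 * R + 2) := by
      rw [hA, mul_pow, ← Real.exp_nat_mul]
      push_cast
      ring_nf
    have h7 : Real.exp (2 * R) ≤ Real.exp (2 * R + 2) := Real.exp_le_exp.2 (by linarith)
    have h8 := Real.exp_pos (2 * R + 2)
    nlinarith
  -- length bounds
  have hmem : ∀ k ∈ Finset.range N, g k ∈ {g | t - (A + R + 2) ≤ X.L g ∧ X.L g ≤ t + (A + R + 2)} := by
    intro k hk
    have hk' : (k : ℝ) ≤ Real.exp t / A := by
      rw [Finset.mem_range, hN, Nat.lt_succ_iff] at hk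
      exact (Nat.le_floor_iff (by positivity)).1 hk
    have hre1 : k * A * Real.exp (-t) ≤ 1 := by
      have h1 : (k : ℝ) * A ≤ Real.exp t := by
        rwa [le_div_iff₀ hA0] at hk'
      have h2 : Real.exp t * Real.exp (-t) = 1 := by rw [← Real.exp_add]; simp
      nlinarith
    have hre0 : 0 ≤ (k : ℝ) * A * Real.exp (-t) := by positivity
    have hd := lower_dist_I _ _ hs (z k) (hzre k) (hzim k)
    have hs1 : Real.exp (-t) ≤ 1 := by
      rw [Real.exp_le_one_iff]
      linarith
    have hinv : 1 / Real.exp (-t) = Real.exp t := by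
      rw [Real.exp_neg]
      simp
    have hlow : Real.exp t / 2 ≤ Real.cosh (dist (I : ℍ) (z k)) := by
      rw [hd, ← hinv, div_div, div_le_div_iff₀ (by positivity) (by positivity)]
      have : 0 ≤ ((k : ℝ) * A * Real.exp (-t)) ^ 2 + Real.exp (-t) ^ 2 := by positivity
      nlinarith
    have hup : Real.cosh (dist (I : ℍ) (z k)) ≤ 3 / 2 * Real.exp t := by
      rw [hd, ← hinv, mul_one_div, div_le_div_iff₀ (by positivity) (by positivity)]
      have h1 : ((k : ℝ) * A * Real.exp (-t)) ^ 2 ≤ 1 := by nlinarith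
      have h2 : Real.exp (-t) ^ 2 ≤ 1 := by nlinarith
      nlinarith
    have h1 := lower_cosh_lower dist_nonneg hlow
    have h2 := lower_cosh_upper hup
    have h3 := hgdist k
    have h4 := dist_triangle (I : ℍ) (z k) (X.M (g k) • (I : ℍ))
    have h5 := dist_triangle_right (I : ℍ) (z k) (X.M (g k) • (I : ℍ))
    have h6 : X.L (g k) = dist (I : ℍ) (X.M (g k) • (I : ℍ)) := rfl
    constructor
    · linarith
    · linarith
  have hfin : {g | t - (A + R + 2) ≤ X.L g ∧ X.L g ≤ t + (A + R + 2)}.Finite :=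
    (X.disc (t + (A + R + 2))).subset fun g hg => hg.2
  have hcard : N ≤ {g | t - (A + R + 2) ≤ X.L g ∧ X.L g ≤ t + (A + R + 2)}.ncard := by
    have h1 : ((Finset.range N).image g : Set Γ) ⊆
        {g | t - (A + R + 2) ≤ X.L g ∧ X.L g ≤ t + (A + R + 2)} := by
      intro x hx
      rw [Finset.coe_image] at hx
      obtain ⟨k, hk, rfl⟩ := hx
      exact hmem k hk
    have h2 := Set.ncard_le_ncard h1 hfin
    rwa [Set.ncard_coe_finset, Finset.card_image_of_injective _ hinj, Finset.card_range] at h2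
  have hNr : Real.exp t / A ≤ N := by
    rw [hN]
    push_cast
    exact (Nat.lt_floor_add_one _).le
  have h1 : Real.exp t ≤ A * N := by
    rwa [div_le_iff₀' hA0] at hNr
  have h2 : (N : ℝ) ≤ ({g | t - (A + R + 2) ≤ X.L g ∧ X.L g ≤ t + (A + R + 2)}.ncard : ℝ) := by
    exact_mod_cast hcard
  have h3 : (0 : ℝ) ≤ N := Nat.cast_nonneg _
  calc Real.exp t ≤ A * N := h1
    _ ≤ (A + R + 2) * N := by nlinarith
    _ ≤ _ := by
        apply mul_le_mul_of_nonneg_left h2
        linarith

end Pool.Agent.Helper12.GM
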